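import Pool.Agent.K9h4.HS.TurnsMain

/-!
One-tape machines which write an algebraic irrational number in real time reverse the direction of
their head at least `δ (log t) ^ 2` times in `t` steps.
-/

set_option autoImplicit false

namespace Pool.Agent.Results.MP_5bdb63_lc.HeadReversals

open Filter Pool.Agent.K9h4.HS

/-- Machines `M l` with one work tape write real numbers `y l` in real time, and an integer
combination of the `y l` is algebraic and irrational. Then for all large `t` the head of one of the
machines turns at least `δ (log t) ^ 2` times in the first `t` steps. -/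
theorem result (b : ℕ) (hb : 2 ≤ b) (r : ℕ) (M : Fin r → Machine 1 b)
    (y : Fin r → ℝ) (c : Fin r → ℤ) (C : ℕ) (hw : ∀ l, (M l).Writes (y l))
    (hC : ∀ l, (M l).RealTime C)
    (halg : IsAlgebraic ℚ (∑ l, (c l : ℝ) * y l)) (hirr : Irrational (∑ l, (c l : ℝ) * y l)) :
    ∃ δ : ℝ, 0 < δ ∧ ∀ᶠ t : ℕ in atTop, ∃ l, δ * Real.log t ^ 2 ≤ (M l).turns 0 t :=
  main_turns b hb r M y c C hw hC halg hirr

end Pool.Agent.Results.MP_5bdb63_lc.HeadReversals
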