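import Pool.Agent.H86.Sst.Top

/-!
# Numbers written by counters with string registers, with a stack, or with integer registers

A machine runs through the numbers `n = 0, 1, 2, …` on a counter in base `k` and writes a word `f n` for each of them. The
number `x` with the expansion `f 0 f 1 f 2 ⋯` in base `b` (the letters may be any integers) is rational or transcendental
if `f` is of one of the following kinds.

1. `f n` is computed from the digits of `n` by a finite automaton with `r` string registers; an update of a register
   concatenates fixed words and contents of registers, and registers may be copied. Let `f n` have at most `n ^ ε`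
   letters, and `f 0, …, f (N - 1)` together at least `N ^ δ` letters, where `(r + 1) ε < δ`.
2. `f n` is computed by a deterministic pushdown automaton with string registers. Let `f n` have `n ^ o(1)` letters, let
   the lengths of `f n` and `f n'` differ at most by a constant factor if `n` and `n'` have the same number of digits, and
   let `f 0, …, f (N - 1)` together have at least `N ^ δ` letters for a `δ > 0`.
3. The integers with the expansions `f n` are the values of a `k`-regular sequence (computed with integer registers and
   linear updates), and the length of `f n` does not decrease and is `O(log n)`.
4. `f n` is the expansion of `u n` in base `b`, where `u` is a `k`-regular nondecreasing sequence of nonnegative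
   integers. (If `u` is a polynomial this is a theorem of Mahler.)

Finite automata (`f n` is a letter) and pushdown automata (`f n` is a letter) are the cases of Adamczewski, Bugeaud, Luca
and of Adamczewski, Cassaigne, Le Gonidec.

The proof: the block of the values `f (a k ^ s + t)`, `t < k ^ s`, depends on the leading part `a` only through few words
or integers, in a fixed pattern; for a pushdown automaton this holds if the symbols below the top of the stack will never
be seen, and every leading part has a short extension of this kind. By the pigeonhole principle many leading parts give
blocks of the same length, whose values satisfy a linear relation with constant coefficients. If `x` is algebraic and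
irrational such relations between blocks of a positive proportion are excluded by the subspace theorem.
-/

set_option autoImplicit false

open Filter

namespace Pool.Agent.Results.MP_5bdb63_lc.RegisterMachines

open Pool.Agent.HS38.TT Pool.Agent.H86.Sst

/-- The kinds of functions `f` from the natural numbers to words: the cases described above. -/
inductive Kind (b k : ℕ) : (ℕ → List ℤ) → Prop
  /-- finite automata with string registers, `(r + 1) ε < δ` -/
  | registers (Q X : Type) [Finite Q] [Fintype X] (M : Machine Q Empty X) (ε δ : ℝ) (hε : 0 ≤ ε)
      (hδ : ((Fintype.card X : ℝ) + 1) * ε < δ)
      (short : ∀ᶠ n : ℕ in atTop, ((M.word k n).length : ℝ) ≤ (n : ℝ) ^ ε)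
      (dense : Dense (M.word k) δ) : Kind b k (M.word k)
  /-- deterministic pushdown automata with string registers -/
  | stack (Q Γ X : Type) [Finite Q] [Finite Γ] [Finite X] (M : Machine Q Γ X) (C : ℕ) (δ : ℝ)
      (hδ : 0 < δ)
      (short : ∀ ε : ℝ, 0 < ε → ∀ᶠ n : ℕ in atTop, ((M.word k n).length : ℝ) ≤ (n : ℝ) ^ ε)
      (comparable : ∀ n n', (Nat.digits k n).length = (Nat.digits k n').length →
        (M.word k n).length ≤ C * (M.word k n').length)
      (dense : Dense (M.word k) δ) : Kind b k (M.word k)
  /-- the values of `f` in base `b` are a `k`-regular sequence -/
  | regular (f : ℕ → List ℤ) (B C : ℕ) (bounded : ∀ n, ∀ z ∈ f n, |z| ≤ B)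
      (mono : Monotone fun n => (f n).length)
      (short : ∀ n, (f n).length ≤ C * ((Nat.digits k n).length + 1)) (nonempty : ∃ n, f n ≠ [])
      (reg : Regular k fun n => val b (f n)) : Kind b k f
  /-- the digits of a nondecreasing `k`-regular sequence -/
  | digits (u : ℕ → ℕ) (mono : Monotone u) (nonzero : ∃ n, u n ≠ 0)
      (reg : Regular k fun n => (u n : ℤ)) :
      Kind b k (fun n => (Nat.digits b (u n)).reverse.map (fun e : ℕ => (e : ℤ)))

/-- Let `b, k ≥ 2` and let `f` be of one of the kinds above. The number with the expansion `f 0 f 1 f 2 ⋯` in base `b` is
rational or transcendental. -/
theorem result {b k : ℕ} (hb : 2 ≤ b) (hk : 2 ≤ k) (f : ℕ → List ℤ) (hf : Kind b k f) (x : ℝ)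
    (hx : Written f b x) : ¬ Irrational x ∨ Transcendental ℚ x := by
  cases hf with
  | registers Q X M ε δ hε hδ short dense => exact top_fin hb hk M hε hδ short dense hx
  | stack Q Γ X M C δ hδ short comparable dense =>
    exact top_push hb hk M hδ short comparable dense hx
  | regular _ B C bounded mono short nonempty reg =>
    exact top_reg hb hk bounded mono short nonempty reg hx
  | digits u mono nonzero reg => exact top_nat hb hk mono nonzero reg hx

end Pool.Agent.Results.MP_5bdb63_lc.RegisterMachines
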