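import Pool.Agent.K9h4.HS.Main

/-!
A trade-off between time and space for multitape machines which write the digits of real numbers
with an algebraic irrational integer combination.

The machines are those of the problem: `k` work tapes, blank in the beginning, no input, digits
written one at a time on a write-only output tape. For `r = 1`, `c = 1` the theorem is about one
machine which writes an algebraic irrational number. In real time `T = O(n)`, so that a machine with
one work tape (for which the number of rests is at most the number of states) uses only
`O(n / log n)` cells, and a machine with several work tapes can use `Ω(n)` cells of one of them only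
if the rest goes through `n ^ Ω(1)` different situations.
-/

set_option autoImplicit false

namespace Pool.Agent.Results.MP_5bdb63_lc.SpaceTimeTradeoff

open Filter Pool.Agent.K9h4.HS

/-- Machines `M l` write the numbers `y l`, and an integer combination of the `y l` is algebraic and
irrational. Then for all large `n` one of the machines satisfies
`cells * log T ≤ 17 T (1 + log (1 + rests))` for each of its work tapes `j`; here `cells` is the
number of cells of the tape `j` which are visited before more than `n` digits are written,
`T` is any time after which at least `(r + ε) n` digits are written, and `rests` is the number of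
different situations (state, other tapes) up to the time `T`. -/
theorem result (b : ℕ) (hb : 2 ≤ b) (r : ℕ) (k : Fin r → ℕ) (M : (l : Fin r) → Machine (k l) b)
    (y : Fin r → ℝ) (c : Fin r → ℤ) (hw : ∀ l, (M l).Writes (y l))
    (halg : IsAlgebraic ℚ (∑ l, (c l : ℝ) * y l)) (hirr : Irrational (∑ l, (c l : ℝ) * y l))
    (ε : ℝ) (hε : 0 < ε) :
    ∀ᶠ n : ℕ in atTop, ∃ l, ∀ (j : Fin (k l)) (τ T : ℕ),
      ((M l).output τ).length ≤ n → (r + ε) * n ≤ ((M l).output T).length →
      ((M l).cells j τ : ℝ) * Real.log T ≤ 17 * T * (1 + Real.log ((M l).rests j T + 1)) :=
  main b hb r k M y c hw halg hirr ε hε

end Pool.Agent.Results.MP_5bdb63_lc.SpaceTimeTradeoff
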