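import Pool.Agent.HS38.TT.Main

/-!
# Numbers written by two-way transducers which read a counter

A deterministic two-way transducer reads the digits in base `k` of `n = 0, 1, 2, …` and writes the words
`f 0, f 1, f 2, …`. If the total length of the first `N` words is at least `N ^ δ` then the number
with the expansion `f 0 f 1 f 2 ⋯` in base `b` is rational or transcendental. Special cases are
the automatic numbers (`f n` is a letter; Adamczewski, Bugeaud and Luca) and the numbers of
Champernowne (`f n` consists of the digits of `n`; Mahler).

The proof: many leading parts `a` of the integers have the same behaviour, and the blocks of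
the values `f (a k ^ s + b)`, `b < k ^ s`, for these `a` satisfy a linear relation with bounded integer
coefficients. Such relations between long blocks of digits of an algebraic irrational number are
excluded by the subspace theorem (`Pool.Agent.Y413.DG.ok`).
-/

set_option autoImplicit false

open Filter

namespace Pool.Agent.Results.MP_5bdb63_lc.TwoWayTransducers

open Pool.Agent.HS38.TT

/-- Let the two-way transducer `T`, which reads digits in base `k`, compute the function `f`, where the
total length of `f 0, …, f (N - 1)` is at least `N ^ δ` for all large `N`. Let `d 0, d 1, …` be the letters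
of the infinite word `f 0 f 1 f 2 ⋯`. Then `x = ∑ d t / b ^ (t + 1)` is rational or transcendental. -/
theorem result {b k : ℕ} (hb : 2 ≤ b) (hk : 2 ≤ k) {Q : Type} [Finite Q] (T : Transducer Q)
    {f : ℕ → List ℤ} (hT : T.Computes k f) {δ : ℝ} (hδ : 0 < δ)
    (hf : ∀ᶠ N : ℕ in atTop, (N : ℝ) ^ δ ≤ (((List.range N).flatMap f).length : ℝ)) {d : ℕ → ℤ}
    (hd : ∀ N : ℕ, (List.range N).flatMap f =
      (List.range ((List.range N).flatMap f).length).map d) {x : ℝ}
    (hx : HasSum (fun t : ℕ => (d t : ℝ) / (b : ℝ) ^ (t + 1)) x) :
    ¬ Irrational x ∨ Transcendental ℚ x := by
  by_cases h : Irrational x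
  · exact Or.inr (main hb hk T hT hδ hf hd hx h)
  · exact Or.inl h

end Pool.Agent.Results.MP_5bdb63_lc.TwoWayTransducers
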